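import Mathlib
import Pool.Agent.Helper53_DP.V2Graph

/-!
# The sharp variation constant on `P_n` when the detached local maxima have separated balls

`ball`, `maximal` and `variation` are the ball, the centred Hardy-Littlewood maximal function and
the variation on an arbitrary finite graph (file `Pool.Agent.Helper51_Max.Graph`).
`IsDetached u m p q` (file `Pool.Agent.Helper53_DP.Graph`) says that `m` has a local maximum along
the plateau `{p, …, q}`, with a value larger than `u` on the plateau.
-/

open SimpleGraph

namespace Pool.Agent.Results.MP_b61ad0_an.DisjointDetached

open Pool.Agent.Helper51_Max Pool.Agent.Helper53_DP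

/-- Let `f` be a function on the path `P_n`. Call a local maximum plateau `{p, …, q}` of `M f`
detached if `M f > |f|` on it. Suppose that one can choose a vertex `Z q` in every detached
plateau `{p, …, q}` and a radius `R q` such that `M f (Z q)` is the mean of `|f|` over the ball of
radius `R q` around `Z q`, and any two of the chosen balls have at most one common vertex. Then
`Var M f ≤ (1 - 1/n) Var f`. (The hypothesis holds if `M f` has at most one detached plateau; the
number of the other local maxima of `M f` is arbitrary.) -/
theorem result (n : ℕ) (f : Fin n → ℝ) (Z : Fin n → Fin n) (R : Fin n → ℕ)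
    (hZ : ∀ p q, IsDetached (fun v => |f v|) (maximal (pathGraph n) f) p q →
      p ≤ Z q ∧ Z q ≤ q ∧
      (∑ w ∈ Helper51_Max.ball (pathGraph n) (Z q) (R q), |f w|) /
        ((Helper51_Max.ball (pathGraph n) (Z q) (R q)).card : ℝ) = maximal (pathGraph n) f (Z q))
    (hB : ∀ p q p' q', IsDetached (fun v => |f v|) (maximal (pathGraph n) f) p q →
      IsDetached (fun v => |f v|) (maximal (pathGraph n) f) p' q' → q ≠ q' →
      (Helper51_Max.ball (pathGraph n) (Z q) (R q) ∩
        Helper51_Max.ball (pathGraph n) (Z q') (R q')).card ≤ 1) :
    variation (pathGraph n) (maximal (pathGraph n) f) ≤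
      (1 - 1 / (n : ℝ)) * variation (pathGraph n) f := by
  rcases n with _ | N
  · rw [variation_zero, variation_zero]
    simp
  · exact graph_touching N f Z R hZ hB

end Pool.Agent.Results.MP_b61ad0_an.DisjointDetached
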