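import Mathlib
import Pool.Agent.Helper37_EM.Graph

/-!
# The sharp variation constant `1 - 1/n` on the path `P_n` for functions with equal minima

`ball`, `maximal` and `variation` are the ball, the centred Hardy-Littlewood maximal function and
the variation on an arbitrary finite graph (file `Pool.Agent.Helper51_Max.Graph`).
`IsPeak u t` (file `Pool.Agent.Helper37_EM.Graph`) says that `t` is the left end of a plateau at
which `u` has a local maximum.
-/

open SimpleGraph

namespace Pool.Agent.Results.MP_b61ad0_an.EqualMinima

open Pool.Agent.Helper51_Max Pool.Agent.Helper37_EM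

open Classical in
/-- Let `f` be a function on the path `P_n` and `m` a lower bound of `|f|`.

(1) `Var M f ≤ (1 - 1/n) (2 ∑_t (|f t| - m) - (|f first| - m) - (|f last| - m))`, where the sum is
over the local maxima `t` of `|f|` (every plateau counted once).

(2) Suppose that between any two vertices `i < k` with a vertex `j` between them at which `|f|` is
smaller than at `i` and at `k` there is a vertex at which `|f| = m` (all interior local minima of
`|f|` have the value `m`). Then `Var M f ≤ (1 - 1/n) Var f`. -/
theorem result (n : ℕ) (hn : 0 < n) (f : Fin n → ℝ) (m : ℝ) (hm : ∀ v, m ≤ |f v|) :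
    variation (pathGraph n) (maximal (pathGraph n) f) ≤
      (1 - 1 / (n : ℝ)) *
        (2 * ∑ t ∈ Finset.univ.filter (IsPeak fun v => |f v|), (|f t| - m) -
          (|f ⟨0, hn⟩| - m) - (|f ⟨n - 1, Nat.sub_lt hn Nat.one_pos⟩| - m)) ∧
    ((∀ i j k : Fin n, i < j → j < k → |f j| < |f i| → |f j| < |f k| →
        ∃ l, i < l ∧ l < k ∧ |f l| = m) →
      variation (pathGraph n) (maximal (pathGraph n) f) ≤
        (1 - 1 / (n : ℝ)) * variation (pathGraph n) f) := by
  refine ⟨?_, fun hdip => equal_minima n f m hm hdip⟩
  obtain ⟨N, rfl⟩ : ∃ N, n = N + 1 := ⟨n - 1, by omega⟩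
  exact general N f m hm

end Pool.Agent.Results.MP_b61ad0_an.EqualMinima
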