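import Mathlib
import Pool.Agent.TMX.AllRows

/-!
# The sharp variation constant `1 - 1/n` on `P_n` for functions with two-component superlevel sets

`ball`, `maximal` and `variation` are the ball, the centred Hardy-Littlewood maximal function and
the variation on an arbitrary finite graph (file `Pool.Agent.Helper51_Max.Graph`).
`TwoComponents u` (file `Pool.Agent.TMX.Asm3`) says that no superlevel set `{u > s}` has three
components: there are no `s` and `a < b < c < d < e` with `u > s` at `a`, `c`, `e` and `u ≤ s` at
`b`, `d`.
-/

open SimpleGraph

namespace Pool.Agent.Results.MP_b61ad0_an.TwoComponents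

open Pool.Agent.Helper51_Max

/-- Let `f` be a function on the path `P_n` such that every superlevel set `{|f| > s}` has at most
two components. Then `Var M f ≤ (1 - 1/n) Var f`. -/
theorem result (n : ℕ) (f : Fin n → ℝ) (h : TMX.TwoComponents fun v => |f v|) :
    variation (pathGraph n) (maximal (pathGraph n) f) ≤
      (1 - 1 / (n : ℝ)) * variation (pathGraph n) f :=
  TMX.graph_twoComp TMX.rows3 n f h

end Pool.Agent.Results.MP_b61ad0_an.TwoComponents
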