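import Mathlib
import Pool.Agent.Helper40_PV.Main

/-!
# A uniform bound for the variation constants of the paths: `C_{P_n} ≤ 1 + 2 log 2`

`ball`, `maximal` and `variation` are the ball, the centred Hardy-Littlewood maximal function and
the variation on an arbitrary finite graph (file `Pool.Agent.Helper51_Max.Graph`).
-/

open SimpleGraph

namespace Pool.Agent.Results.MP_b61ad0_an.UniformBound

open Pool.Agent.Helper51_Max

/-- For every `n` and every real function `f` on the path `P_n`,
`Var M f ≤ (1 + 2 log 2) Var f`, `1 + 2 log 2 = 2.386…`. -/
theorem result (n : ℕ) (f : Fin n → ℝ) :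
    variation (pathGraph n) (maximal (pathGraph n) f) ≤
      (1 + 2 * Real.log 2) * variation (pathGraph n) f :=
  Pool.Agent.Helper40_PV.main n f

end Pool.Agent.Results.MP_b61ad0_an.UniformBound
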